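import Mathlib

set_option autoImplicit false

/-!
Injective linear hashing: for a set `D` of Boolean vectors with `|D| ^ 2 < 2 ^ m` there are `m`
parities which separate the points of `D`.
-/

namespace Pool.Agent.W939.PT

open Finset

variable {n : ℕ}

/-- parity of the coordinates in `T` -/
def par (T : Finset (Fin n)) (x : Fin n → Bool) : Bool :=
  decide (Odd (T.filter fun i => x i = true).card)

theorem par_erase (T : Finset (Fin n)) (x : Fin n → Bool) (i : Fin n) (hi : i ∉ T) :
    par (insert i T) x = xor (par T x) (x i) := by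
  unfold par
  rw [filter_insert]
  cases h : x i
  · simp
  · have : i ∉ T.filter fun i => x i = true := fun h => hi (mem_filter.1 h).1
    rw [if_pos rfl, card_insert_of_notMem this]
    by_cases h4 : Odd (T.filter fun i => x i = true).card <;> simp [h4, Nat.odd_add_one]

/-- flip of one coordinate -/
def flp (i : Fin n) (T : Finset (Fin n)) : Finset (Fin n) :=
  if i ∈ T then T.erase i else insert i T

theorem flp_flp (i : Fin n) (T : Finset (Fin n)) : flp i (flp i T) = T := by
  unfold flp
  by_cases h : i ∈ T
  · rw [if_pos h, if_neg (notMem_erase i T), insert_erase h]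
  · rw [if_neg h, if_pos (mem_insert_self i T), erase_insert h]

theorem par_flp (i : Fin n) (T : Finset (Fin n)) (x : Fin n → Bool) :
    par (flp i T) x = xor (par T x) (x i) := by
  unfold flp
  by_cases h : i ∈ T
  · rw [if_pos h]
    have h1 := par_erase (T.erase i) x i (notMem_erase i T)
    rw [insert_erase h] at h1
    rw [h1]
    cases par (T.erase i) x <;> cases x i <;> rfl
  · rw [if_neg h, par_erase T x i h]

theorem half (x y : Fin n → Bool) (h : x ≠ y) :
    2 * (univ.filter fun T : Finset (Fin n) => par T x = par T y).card =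
      (univ : Finset (Finset (Fin n))).card := by
  obtain ⟨i, hi⟩ : ∃ i, x i ≠ y i := by
    by_contra hcon
    push Not at hcon
    exact h (funext hcon)
  have h1 : (univ.filter fun T : Finset (Fin n) => par T x = par T y).card =
      (univ.filter fun T : Finset (Fin n) => ¬ par T x = par T y).card := by
    refine card_bij (fun T _ => flp i T) ?_ ?_ ?_
    · intro T hT
      rw [mem_filter] at hT ⊢
      refine ⟨mem_univ _, ?_⟩
      rw [par_flp, par_flp, hT.2]
      cases par T y <;> cases hx : x i <;> cases hy : y i <;> simp_all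
    · intro T _ T' _ e
      rw [← flp_flp i T, ← flp_flp i T', e]
    · intro T hT
      rw [mem_filter] at hT
      refine ⟨flp i T, ?_, flp_flp i T⟩
      rw [mem_filter]
      refine ⟨mem_univ _, ?_⟩
      rw [par_flp, par_flp]
      have h2 := hT.2
      cases h3 : par T x <;> cases h4 : par T y <;> cases hx : x i <;> cases hy : y i <;> simp_all
  have h2 := card_filter_add_card_filter_not (s := (univ : Finset (Finset (Fin n))))
    (fun T => par T x = par T y)
  omega

theorem step (P : Finset ((Fin n → Bool) × (Fin n → Bool))) (hP : ∀ p ∈ P, p.1 ≠ p.2) :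
    ∃ T : Finset (Fin n), 2 * (P.filter fun p => par T p.1 = par T p.2).card ≤ P.card := by
  have h : ∑ T : Finset (Fin n), 2 * (P.filter fun p => par T p.1 = par T p.2).card ≤
      ∑ T : Finset (Fin n), P.card := by
    rw [sum_const, smul_eq_mul, ← mul_sum]
    have h1 : ∑ T : Finset (Fin n), (P.filter fun p => par T p.1 = par T p.2).card =
        ∑ p ∈ P, (univ.filter fun T : Finset (Fin n) => par T p.1 = par T p.2).card := by
      simp only [card_filter]
      exact sum_comm
    rw [h1, mul_sum]
    rw [sum_congr rfl fun p hp => half p.1 p.2 (hP p hp)]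
    rw [sum_const, smul_eq_mul, mul_comm]
  obtain ⟨T, -, hT⟩ := exists_le_of_sum_le univ_nonempty h
  exact ⟨T, hT⟩

theorem steps (P : Finset ((Fin n → Bool) × (Fin n → Bool))) (hP : ∀ p ∈ P, p.1 ≠ p.2) :
    ∀ m : ℕ, ∃ H : Fin m → Finset (Fin n),
      2 ^ m * (P.filter fun p => ∀ i, par (H i) p.1 = par (H i) p.2).card ≤ P.card
  | 0 => ⟨fun i => i.elim0, by simp⟩
  | m + 1 => by
    obtain ⟨H, hH⟩ := steps P hP m
    obtain ⟨T, hT⟩ := step (P.filter fun p => ∀ i, par (H i) p.1 = par (H i) p.2)
      (fun p hp => hP p (mem_filter.1 hp).1)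
    refine ⟨Fin.cons T H, ?_⟩
    have h1 : (P.filter fun p => ∀ i, par ((Fin.cons T H : Fin (m + 1) → Finset (Fin n)) i) p.1 =
        par ((Fin.cons T H : Fin (m + 1) → Finset (Fin n)) i) p.2) =
        (P.filter fun p => ∀ i, par (H i) p.1 = par (H i) p.2).filter
          fun p => par T p.1 = par T p.2 := by
      rw [filter_filter]
      refine filter_congr fun p _ => ?_
      rw [Fin.forall_fin_succ]
      simp only [Fin.cons_zero, Fin.cons_succ]
      exact and_comm
    rw [h1, pow_succ]
    calc 2 ^ m * 2 * ((P.filter fun p => ∀ i, par (H i) p.1 = par (H i) p.2).filter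
          fun p => par T p.1 = par T p.2).card
        = 2 ^ m * (2 * ((P.filter fun p => ∀ i, par (H i) p.1 = par (H i) p.2).filter
          fun p => par T p.1 = par T p.2).card) := by ring
      _ ≤ 2 ^ m * (P.filter fun p => ∀ i, par (H i) p.1 = par (H i) p.2).card :=
          Nat.mul_le_mul_left _ hT
      _ ≤ P.card := hH

/-- Injective linear hashing. -/
theorem exists_hash (D : Finset (Fin n → Bool)) (m : ℕ) (hm : D.card ^ 2 < 2 ^ m) :
    ∃ H : Fin m → Finset (Fin n), Set.InjOn (fun x i => par (H i) x) (D : Set (Fin n → Bool)) := by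
  classical
  obtain ⟨H, hH⟩ := steps D.offDiag (fun p hp => (mem_offDiag.1 hp).2.2) m
  refine ⟨H, fun x hx y hy hxy => ?_⟩
  by_contra hne
  have h1 : 0 < (D.offDiag.filter fun p => ∀ i, par (H i) p.1 = par (H i) p.2).card := by
    rw [card_pos]
    refine ⟨(x, y), mem_filter.2 ⟨mem_offDiag.2 ⟨hx, hy, hne⟩, fun i => ?_⟩⟩
    exact congrFun hxy i
  have h2 : D.offDiag.card ≤ D.card ^ 2 := by
    rw [offDiag_card, sq]
    exact Nat.sub_le _ _
  have h3 : 2 ^ m * 1 ≤ 2 ^ m *
      (D.offDiag.filter fun p => ∀ i, par (H i) p.1 = par (H i) p.2).card :=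
    Nat.mul_le_mul_left _ h1
  omega

end Pool.Agent.W939.PT
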