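import Mathlib
import Pool.Agent.W939.FR.Prog
import Pool.Agent.W939.PT.Hash

set_option autoImplicit false

/-!
A formula for the parity of the hardwired bits in the blocks whose pattern the hash value of the
input has.
-/

namespace Pool.Agent.W939.PT

open Finset H542.MC Pool.Agent.W939.FR

variable {V : Type} {n m : ℕ}

/-- a small formula for a parity -/
theorem par_tree (i0 : Fin n) (T : Finset (Fin n)) : ∃ t : Tm V n, 1 ≤ t.gates ∧
    t.gates ≤ 8 * n ^ 2 ∧ ∀ (y : V → Bool) (x : Fin n → Bool), t.val y x = par T x := by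
  have hn : 1 ≤ n := by have := i0.2; omega
  obtain ⟨k, hk1, hk2⟩ : ∃ k, n ≤ 2 ^ k ∧ 4 ^ k ≤ 4 * n ^ 2 := by
    refine ⟨Nat.log 2 n + 1, (Nat.lt_pow_succ_log_self (by norm_num) n).le, ?_⟩
    have h1 : 2 ^ Nat.log 2 n ≤ n := Nat.pow_log_le_self 2 (by omega)
    have h2 : 4 ^ (Nat.log 2 n + 1) = 4 * (2 ^ Nat.log 2 n) ^ 2 := by
      rw [show (4 : ℕ) = 2 ^ 2 by norm_num, ← pow_mul, ← pow_mul, ← pow_add]
      congr 1
      ring
    rw [h2]
    exact Nat.mul_le_mul_left _ (Nat.pow_le_pow_left h1 2)
  let lf : Fin n → Tm V n := fun i => .node true (.inl false) (.inl false) (.leaf i) (.leaf i)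
  obtain ⟨t, h1, h2, h3⟩ := bal_xor (V := V) i0 1 le_rfl k (T.toList.map lf) (by
    rw [List.length_map, length_toList]
    exact (card_le_univ T).trans (by rw [Fintype.card_fin]; exact hk1)) (by
    intro t ht
    obtain ⟨i, -, rfl⟩ := List.mem_map.1 ht
    exact ⟨le_rfl, le_rfl⟩)
  refine ⟨t, h1, by omega, fun y x => ?_⟩
  rw [h3, List.map_map]
  have e : ((fun t => t.val y x) ∘ lf) = fun i => decide (Odd (if x i = true then 1 else 0)) := by
    funext i
    show (lf i).val y x = _
    cases h : x i <;> simp [lf, Tm.val, lv, h]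
  rw [e, foldr_xor, Finset.sum_map_toList, par, card_filter]

/-- conjunction with formulas or their negations -/
def conjP (P : Fin m → Tm V n) (R : Finset (Fin m)) (t : Tm V n) : List (Fin m) → Tm V n
  | [] => t
  | i :: l => .node true (.inl false) (.inl (decide (i ∉ R))) (conjP P R t l) (P i)

theorem conjP_gates (P : Fin m → Tm V n) (c : ℕ) (hP : ∀ i, (P i).gates ≤ c)
    (R : Finset (Fin m)) (t : Tm V n) : ∀ l : List (Fin m),
    t.gates ≤ (conjP P R t l).gates ∧ (conjP P R t l).gates ≤ t.gates + l.length * (c + 1)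
  | [] => by simp [conjP]
  | j :: l => by
    have h1 := conjP_gates P c hP R t l
    have h2 := hP j
    simp only [conjP, Tm.gates, List.length_cons]
    constructor
    · omega
    · rw [Nat.add_mul]
      omega

theorem conjP_val (P : Fin m → Tm V n) (R : Finset (Fin m)) (t : Tm V n) (y : V → Bool)
    (x : Fin n → Bool) : ∀ l : List (Fin m), (conjP P R t l).val y x =
      (t.val y x && decide (∀ i ∈ l, ((P i).val y x = true ↔ i ∈ R)))
  | [] => by simp [conjP]
  | i :: l => by
    simp only [conjP, Tm.val, lv, if_true, conjP_val P R t y x l, Bool.xor_false]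
    by_cases h1 : ∀ j ∈ l, ((P j).val y x = true ↔ j ∈ R) <;> by_cases h2 : i ∈ R <;>
      cases h3 : (P i).val y x <;> simp [h1, h2, h3]

/-- parity of the hardwired bits of a block -/
def parT (i : Fin n) {g M : ℕ} (p : Blk m g) : List (Fin M) → Tm (Blk m g × Fin M) n
  | [] => ffT i
  | j :: l => .node false (.inr (p, j)) (.inl false) (parT i p l) (ffT i)

theorem parT_gates (i : Fin n) {g M : ℕ} (p : Blk m g) : ∀ l : List (Fin M),
    (parT i p l).gates = 1 + 2 * l.length
  | [] => rfl
  | j :: l => by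
    simp only [parT, Tm.gates, parT_gates i p l, ffT_gates, List.length_cons]
    ring

theorem parT_val (i : Fin n) {g M : ℕ} (p : Blk m g) (y : Blk m g × Fin M → Bool)
    (x : Fin n → Bool) :
    ∀ l : List (Fin M), (parT i p l).val y x = (l.map fun j => y (p, j)).foldr xor false
  | [] => ffT_val i y x
  | j :: l => by
    simp only [parT, Tm.val, ffT_val, lv, Bool.false_eq_true, if_false, List.map_cons,
      List.foldr_cons, parT_val i p y x l, Bool.xor_false, Bool.or_false]
    exact Bool.xor_comm _ _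

/-- A formula which computes `parV` of the hash value. -/
theorem prog_hash (n m g M : ℕ) (hn : 1 ≤ n) (hN : 1 ≤ Fintype.card (Blk m g))
    (H : Fin m → Finset (Fin n)) :
    ∃ t : Tm (Blk m g × Fin M) n, 1 ≤ t.gates ∧
      t.gates + 1 ≤ 4 * Fintype.card (Blk m g) ^ 2 * (2 * M + g * (8 * n ^ 2 + 1) + 2) ∧
      ∀ (y : Blk m g × Fin M → Bool) (x : Fin n → Bool),
        t.val y x = parV (fun i => par (H i) x) y := by
  classical
  obtain ⟨i⟩ : Nonempty (Fin n) := ⟨⟨0, hn⟩⟩
  obtain ⟨k, hk1, hk2⟩ : ∃ k, Fintype.card (Blk m g) ≤ 2 ^ k ∧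
      4 ^ k ≤ 4 * Fintype.card (Blk m g) ^ 2 := by
    obtain ⟨N, hN'⟩ : ∃ N, N = Fintype.card (Blk m g) := ⟨_, rfl⟩
    rw [← hN'] at hN ⊢
    refine ⟨Nat.log 2 N + 1, (Nat.lt_pow_succ_log_self (by norm_num) N).le, ?_⟩
    have h1 : 2 ^ Nat.log 2 N ≤ N := Nat.pow_log_le_self 2 (by omega)
    have h2 : 4 ^ (Nat.log 2 N + 1) = 4 * (2 ^ Nat.log 2 N) ^ 2 := by
      rw [show (4 : ℕ) = 2 ^ 2 by norm_num, ← pow_mul, ← pow_mul, ← pow_add]
      congr 1
      ring
    rw [h2]
    exact Nat.mul_le_mul_left _ (Nat.pow_le_pow_left h1 2)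
  choose P hP1 hP2 hP3 using fun i' : Fin m =>
    par_tree (V := Blk m g × Fin M) i (H i')
  -- the formula of a block
  let tp : Blk m g → Tm (Blk m g × Fin M) n := fun p =>
    conjP P p.1.2 (parT i p (univ : Finset (Fin M)).toList) p.1.1.toList
  have tp_gates : ∀ p, 1 ≤ (tp p).gates ∧ (tp p).gates ≤ 1 + 2 * M + g * (8 * n ^ 2 + 1) := by
    intro p
    have h1 := conjP_gates P (8 * n ^ 2) hP2 p.1.2
      (parT i p (univ : Finset (Fin M)).toList) p.1.1.toList
    rw [parT_gates, length_toList, length_toList, card_univ, Fintype.card_fin, p.2.1] at h1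
    exact ⟨le_trans (by omega) h1.1, h1.2⟩
  let cnt : (Blk m g × Fin M → Bool) → (Fin n → Bool) → Blk m g → ℕ := fun y x p =>
    if Has (fun i => par (H i) x) p then ∑ j : Fin M, (if y (p, j) = true then 1 else 0) else 0
  have tp_val : ∀ p (y : Blk m g × Fin M → Bool) (x : Fin n → Bool),
      (tp p).val y x = decide (Odd (cnt y x p)) := by
    intro p y x
    show (conjP _ _ _ _).val y x = _
    rw [conjP_val, parT_val]
    have e1 : decide (∀ i ∈ p.1.1.toList, ((P i).val y x = true ↔ i ∈ p.1.2)) =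
        decide (Has (fun i => par (H i) x) p) := by
      unfold Has
      simp only [mem_toList, hP3]
    have e2 : ((univ : Finset (Fin M)).toList.map fun j => y (p, j)).foldr xor false =
        decide (Odd (∑ j : Fin M, (if y (p, j) = true then 1 else 0))) := by
      rw [← Finset.sum_map_toList, ← foldr_xor]
      congr 1
      refine List.map_congr_left fun j _ => ?_
      cases y (p, j) <;> simp
    rw [e1, e2]
    show _ = decide (Odd (if Has (fun i => par (H i) x) p then _ else 0))
    by_cases h : Has (fun i => par (H i) x) p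
    · simp [h]
    · simp [h]
  obtain ⟨T, h1, h2, h3⟩ := bal_xor (V := Blk m g × Fin M) i (1 + 2 * M + g * (8 * n ^ 2 + 1))
    (by omega) k ((univ : Finset (Blk m g)).toList.map tp)
    (by rw [List.length_map, length_toList, card_univ]; exact hk1)
    (by
      intro t ht
      obtain ⟨p, -, rfl⟩ := List.mem_map.1 ht
      exact tp_gates p)
  refine ⟨T, h1, ?_, fun y x => ?_⟩
  · refine h2.trans ?_
    have e : 1 + 2 * M + g * (8 * n ^ 2 + 1) + 1 = 2 * M + g * (8 * n ^ 2 + 1) + 2 := by ring
    rw [e]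
    exact Nat.mul_le_mul_right _ hk2
  · rw [h3, List.map_map]
    have e3 : ((fun t => t.val y x) ∘ tp) = fun p => decide (Odd (cnt y x p)) := by
      funext p
      exact tp_val p y x
    rw [e3, foldr_xor, Finset.sum_map_toList]
    unfold parV
    have e4 : (univ.filter fun v : Blk m g × Fin M =>
        Has (fun i => par (H i) x) v.1 ∧ y v = true).card = ∑ p, cnt y x p := by
      rw [card_filter, Fintype.sum_prod_type]
      refine sum_congr rfl fun p _ => ?_
      show _ = if Has (fun i => par (H i) x) p then _ else 0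
      by_cases h : Has (fun i => par (H i) x) p
      · simp [h]
      · simp [h]
    rw [e4]

end Pool.Agent.W939.PT
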