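import Mathlib
import Pool.Agent.W939.PT.Abs
import Pool.Agent.W939.PT.Prog

set_option autoImplicit false

/-!
The lower bound for partial truth tables with an arbitrary domain.
-/

namespace Pool.Agent.W939.PT

open Finset H542 H542.MC Pool.Agent.W939.FR

variable {n s w : ℕ}

/-- The domain of a partial truth table. -/
def dom (T : (Fin n → Bool) → Option Bool) : Finset (Fin n → Bool) :=
  univ.filter fun x => (T x).isSome = true

/-- The circuit described by `z` is well formed and agrees with the partial truth table `T` at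
the input `x`. -/
def Agrees (T : (Fin n → Bool) → Option Bool) (x : Fin n → Bool) (z : Bits s w → Bool) : Prop :=
  Valid n z ∧ ∀ b, T x = some b → output z x = b

/-- the parameters -/
theorem params (δ : ℝ) (hδ : 0 < δ) (m0 : ℕ) : ∃ n0 : ℕ, ∀ n ≥ n0, ∀ (s K : ℕ),
    K ≤ 2 ^ n → (K : ℝ) ^ δ ≤ s → s ≤ K ^ 2 → n ^ 7 ≤ s → ∃ m : ℕ, m0 ≤ m ∧ K ^ 2 < 2 ^ m ∧
      m ≤ 2 * n + 1 ∧ (2 : ℝ) ^ (δ / 3 * m) ≤ s ∧ s ≤ 2 ^ m ∧
      (m * (4 * n ^ 2 + 1) + 1) ^ 2 ≤ s ∧ 1 ≤ n := by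
  refine ⟨max (2 ^ m0) 100, fun n hn s K hK hδK hsK hns => ?_⟩
  have hn1 : 2 ^ m0 ≤ n := (le_max_left _ _).trans hn
  have hn2 : 100 ≤ n := (le_max_right _ _).trans hn
  have hn7 : n ≤ n ^ 7 := Nat.le_self_pow (by norm_num) n
  have hK2 : n ≤ K ^ 2 := hn7.trans (hns.trans hsK)
  have hK1 : 2 ≤ K := by
    by_contra h
    have h1 : K ≤ 1 := by omega
    have h2 : K ^ 2 ≤ 1 ^ 2 := Nat.pow_le_pow_left h1 2
    omega
  have hm1 : K ^ 2 < 2 ^ (Nat.log 2 (K ^ 2) + 1) := Nat.lt_pow_succ_log_self (by norm_num) _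
  have hm2 : 2 ^ Nat.log 2 (K ^ 2) ≤ K ^ 2 := Nat.pow_log_le_self 2 (by omega)
  have hlog : Nat.log 2 (K ^ 2) ≤ 2 * n := by
    have h1 : K ^ 2 ≤ 2 ^ (2 * n) := by
      calc K ^ 2 ≤ (2 ^ n) ^ 2 := Nat.pow_le_pow_left hK 2
        _ = 2 ^ (2 * n) := by rw [← pow_mul]; ring_nf
    have h2 : 2 ^ Nat.log 2 (K ^ 2) ≤ 2 ^ (2 * n) := hm2.trans h1
    exact (Nat.pow_le_pow_iff_right (by norm_num)).1 h2
  refine ⟨Nat.log 2 (K ^ 2) + 1, ?_, hm1, by omega, ?_, (hsK.trans_lt hm1).le, ?_, by omega⟩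
  · have h1 : 2 ^ m0 ≤ 2 ^ (Nat.log 2 (K ^ 2) + 1) := hn1.trans (hK2.trans hm1.le)
    exact (Nat.pow_le_pow_iff_right (by norm_num)).1 h1
  · refine le_trans ?_ hδK
    have h3 : ((2 : ℝ)) ^ ((Nat.log 2 (K ^ 2) + 1 : ℕ) : ℝ) ≤ (K : ℝ) ^ (3 : ℝ) := by
      rw [Real.rpow_natCast, show (3 : ℝ) = ((3 : ℕ) : ℝ) by norm_num, Real.rpow_natCast]
      have h4 : 2 ^ (Nat.log 2 (K ^ 2) + 1) ≤ K ^ 3 := by
        calc 2 ^ (Nat.log 2 (K ^ 2) + 1) = 2 ^ Nat.log 2 (K ^ 2) * 2 := pow_succ _ _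
          _ ≤ K ^ 2 * K := Nat.mul_le_mul hm2 hK1
          _ = K ^ 3 := by ring
      exact_mod_cast h4
    calc (2 : ℝ) ^ (δ / 3 * ((Nat.log 2 (K ^ 2) + 1 : ℕ) : ℝ))
        = ((2 : ℝ) ^ ((Nat.log 2 (K ^ 2) + 1 : ℕ) : ℝ)) ^ (δ / 3) := by
          rw [← Real.rpow_mul (by norm_num)]
          congr 1
          ring
      _ ≤ ((K : ℝ) ^ (3 : ℝ)) ^ (δ / 3) :=
          Real.rpow_le_rpow (by positivity) h3 (by positivity)
      _ = (K : ℝ) ^ δ := by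
          rw [← Real.rpow_mul (by positivity)]
          congr 1
          ring
  · refine le_trans ?_ hns
    have h1 : (Nat.log 2 (K ^ 2) + 1) * (4 * n ^ 2 + 1) + 1 ≤ 9 * n ^ 3 := by
      have h2 : (Nat.log 2 (K ^ 2) + 1) * (4 * n ^ 2 + 1) ≤ (2 * n + 1) * (4 * n ^ 2 + 1) :=
        Nat.mul_le_mul_right _ (by omega)
      have h3 : (2 * n + 1) * (4 * n ^ 2 + 1) = 8 * n ^ 3 + 4 * n ^ 2 + 2 * n + 1 := by ring
      have h4 : 4 * n ^ 2 + 2 * n + 2 ≤ n ^ 3 := by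
        have h5 : 100 * n ^ 2 ≤ n ^ 3 := by
          calc 100 * n ^ 2 ≤ n * n ^ 2 := Nat.mul_le_mul_right _ hn2
            _ = n ^ 3 := by ring
        have h6 : n ≤ n ^ 2 := Nat.le_self_pow (by norm_num) n
        omega
      omega
    calc ((Nat.log 2 (K ^ 2) + 1) * (4 * n ^ 2 + 1) + 1) ^ 2 ≤ (9 * n ^ 3) ^ 2 :=
          Nat.pow_le_pow_left h1 2
      _ = 81 * n ^ 6 := by ring
      _ ≤ n * n ^ 6 := Nat.mul_le_mul_right _ (by omega)
      _ = n ^ 7 := by ring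

/-- Partial truth tables with an arbitrary domain; `Corr` is any condition which follows from
being the description of a formula which agrees with the table. -/
theorem partial_main (δ : ℝ) (hδ : 0 < δ) :
    ∃ ε : ℝ, 0 < ε ∧ ∃ n0 : ℕ, ∀ n ≥ n0, ∀ (T : (Fin n → Bool) → Option Bool) (s w : ℕ),
      ((dom T).card : ℝ) ^ δ ≤ s → s ≤ (dom T).card ^ 2 → n ^ 7 ≤ s → n + s ≤ 2 ^ w →
        ∀ Corr : (Fin n → Bool) → (Bits s w → Bool) → Prop,
        (∀ x z, Valid n z → Once n z → (∀ b, T x = some b → output z x = b) → Corr x z) →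
        ∀ a L S : ℕ, (a : ℝ) ≤ (s : ℝ) ^ ε → (L : ℝ) ≤ (s : ℝ) ^ (1 + ε) →
          Nonempty (Ref (Bits s w) (Fin n → Bool) Corr a L S) →
            (2 : ℝ) ^ ((s : ℝ) ^ ε) ≤ S := by
  obtain ⟨ε, hε, m0, hmain⟩ := main (m_expa m_isol) m_flip m_card m_num (δ / 3) (by positivity)
  obtain ⟨n0, hn0⟩ := params δ hδ m0
  refine ⟨ε, hε, n0, fun n hn T s w h1 h2 h3 h4 Corr hCorr a L S ha hL hR => ?_⟩
  obtain ⟨m, c1, c2, c3, c4, c5, c6, c7⟩ := hn0 n hn s (dom T).card (by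
    refine (card_le_univ _).trans ?_
    simp) h1 h2 h3
  obtain ⟨H, hH⟩ := exists_hash (dom T) m c2
  refine hmain m c1 s (m * (4 * n ^ 2 + 1) + 1) c4 c5 c6 (Bits s w) (Fin n → Bool)
    (dom T : Set (Fin n → Bool)) (fun x i => par (H i) x) (fun x => (T x).getD false) Corr hH
    ?_ a L S ha hL hR
  intro d M hd hM hs
  have hne : Nonempty (Blk m (2 * d)) := by
    obtain ⟨S, hS⟩ := exists_subset_card_eq (s := (univ : Finset (Fin m))) (n := 2 * d)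
      (by rw [card_univ, Fintype.card_fin]; omega)
    exact ⟨⟨(S, ∅), hS.2, empty_subset _⟩⟩
  obtain ⟨t, t1, t2, t3⟩ := prog_hash n m (2 * d) M c7 Fintype.card_pos H
  have t4 : t.gates ≤ s := by
    have e1 : 4 * Fintype.card (Blk m (2 * d)) ^ 2 * (2 * M + 2 * d * (8 * n ^ 2 + 1) + 2) ≤
        8 * Fintype.card (Blk m (2 * d)) ^ 2 * (M + (m * (4 * n ^ 2 + 1) + 1)) := by
      have e2 : 8 * Fintype.card (Blk m (2 * d)) ^ 2 * (M + (m * (4 * n ^ 2 + 1) + 1)) =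
        4 * Fintype.card (Blk m (2 * d)) ^ 2 * (2 * (M + (m * (4 * n ^ 2 + 1) + 1))) := by ring
      rw [e2]
      refine Nat.mul_le_mul_left _ ?_
      have e3 : 3 * d * (4 * n ^ 2 + 1) ≤ m * (4 * n ^ 2 + 1) := Nat.mul_le_mul_right _ hd
      nlinarith
    omega
  obtain ⟨σ, hσ⟩ := conv_tree (w := w) c7 t t1 t4 h4
  refine ⟨fun b => match σ b with
    | .inl c => .inl c
    | .inr v => .inr (v, false), fun y x hx => ?_⟩
  have e : (fun b => lw y (match σ b with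
      | .inl c => (.inl c : Bool ⊕ ((Blk m (2 * d) × Fin M) × Bool))
      | .inr v => .inr (v, false))) = fun b => lv y (σ b) := by
    funext b
    rcases σ b with c | v
    · rfl
    · show xor (y v) false = y v
      exact Bool.xor_false _
  rw [e]
  obtain ⟨k1, k2, k3⟩ := hσ y
  refine hCorr x _ k1 k2 fun b hb => ?_
  rw [k3, t3, hx (by
    show x ∈ ((dom T : Finset _) : Set _)
    rw [mem_coe, dom, mem_filter]
    exact ⟨mem_univ _, by rw [hb]; rfl⟩), hb]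
  rfl

/-- Circuits for partial truth tables. -/
theorem partial_circ (δ : ℝ) (hδ : 0 < δ) :
    ∃ ε : ℝ, 0 < ε ∧ ∃ n0 : ℕ, ∀ n ≥ n0, ∀ (T : (Fin n → Bool) → Option Bool) (s w : ℕ),
      ((dom T).card : ℝ) ^ δ ≤ s → s ≤ (dom T).card ^ 2 → n ^ 7 ≤ s → n + s ≤ 2 ^ w →
        ∀ a L S : ℕ, (a : ℝ) ≤ (s : ℝ) ^ ε → (L : ℝ) ≤ (s : ℝ) ^ (1 + ε) →
          Nonempty (Ref (Bits s w) (Fin n → Bool) (Agrees T) a L S) →
            (2 : ℝ) ^ ((s : ℝ) ^ ε) ≤ S := by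
  obtain ⟨ε, hε, n0, h⟩ := partial_main δ hδ
  exact ⟨ε, hε, n0, fun n hn T s w h1 h2 h3 h4 a L S ha hL hR =>
    h n hn T s w h1 h2 h3 h4 (Agrees T) (fun x z k1 _ k3 => ⟨k1, k3⟩) a L S ha hL hR⟩

end Pool.Agent.W939.PT
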