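import Mathlib
import Pool.Agent.W939.PT.Circ

set_option autoImplicit false

/-!
Descriptions of branching programs by bits, and programs with hardwired bits.
-/

namespace Pool.Agent.W939.PT

open Finset H542 H542.MC

/-- The bits which describe a branching program with `s` inner nodes: for the inner node `j`, the
bits `inl (j, t)`, `t < v`, are the bits of the number of the variable which is read, and
`inr (j, b, t)`, `t < w`, are the bits of the address of the successor for the value `b`. -/
abbrev BBits (s v w : ℕ) := (Fin s × Fin v) ⊕ (Fin s × Bool × Fin w)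

variable {s v w n : ℕ}

/-- The number of the variable read by the inner node `j`. -/
def bvar (z : BBits s v w → Bool) (j : Fin s) : ℕ :=
  ∑ t : Fin v, if z (.inl (j, t)) = true then 2 ^ t.val else 0

/-- The address of the successor of the inner node `j` for the value `b`.  The addresses `0` and
`1` are the sinks with these labels, `2 + i` is the address of the inner node `i`. -/
def bnext (z : BBits s v w → Bool) (j : Fin s) (b : Bool) : ℕ :=
  ∑ t : Fin w, if z (.inr (j, b, t)) = true then 2 ^ t.val else 0

/-- The branching program is well formed: the nodes read input variables, and every edge leads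
from an inner node to a sink or to an inner node with a smaller number. -/
def BValid (n : ℕ) (z : BBits s v w → Bool) : Prop :=
  ∀ j, bvar z j < n ∧ ∀ b, bnext z j b < 2 + j.val

/-- The value of the variable number `i`. -/
def rd (x : Fin n → Bool) (i : ℕ) : Bool := if h : i < n then x ⟨i, h⟩ else false

/-- One step of the computation on the input `x` (the sinks are not left). -/
def bstep (z : BBits s v w → Bool) (x : Fin n → Bool) (a : ℕ) : ℕ :=
  if h : 2 ≤ a ∧ a - 2 < s then bnext z ⟨a - 2, h.2⟩ (rd x (bvar z ⟨a - 2, h.2⟩)) else a

/-- The output on the input `x`: the source is the last inner node, its address is `s + 1`; after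
`s` steps the computation is in a sink, its label is the output. -/
def bout (z : BBits s v w → Bool) (x : Fin n → Bool) : Bool :=
  decide ((bstep z x)^[s] (s + 1) = 1)

/-- The branching program described by `z` is well formed and agrees with the partial truth table
`T` at the input `x`. -/
def BAgrees (T : (Fin n → Bool) → Option Bool) (x : Fin n → Bool) (z : BBits s v w → Bool) :
    Prop :=
  BValid n z ∧ ∀ b, T x = some b → bout z x = b

/-- a node with a hardwired lowest address bit -/
structure Nd (V : Type) where
  var : ℕ
  hi : Bool → ℕ
  lo : Bool → Bool ⊕ (V × Bool)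

variable {V : Type}

/-- the description of a table of nodes -/
def sgb (g : ℕ → Nd V) : BBits s v w → Bool ⊕ (V × Bool)
  | .inl (j, t) => .inl ((g j).var.testBit t)
  | .inr (j, b, t) => if t.val = 0 then (g j).lo b else .inl (((g j).hi b).testBit (t.val - 1))

theorem bvar_sgb (g : ℕ → Nd V) (y : V → Bool) (j : Fin s) (h : (g j).var < 2 ^ v) :
    bvar (fun b : BBits s v w => lw y (sgb g b)) j = (g j).var := by
  unfold bvar
  exact MConv.sum_bits v _ h

theorem bnext_sgb (g : ℕ → Nd V) (y : V → Bool) (j : Fin s) (b : Bool)
    (h : 2 * (g j).hi b + 1 < 2 ^ w) :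
    bnext (fun b : BBits s v w => lw y (sgb g b)) j b =
      2 * (g j).hi b + (lw y ((g j).lo b)).toNat := by
  have h1 : (lw y ((g j).lo b)).toNat ≤ 1 := Bool.toNat_le _
  rw [← MConv.sum_bits w (2 * (g j).hi b + (lw y ((g j).lo b)).toNat) (by omega)]
  unfold bnext
  refine sum_congr rfl fun t _ => ?_
  have e : lw y (if t.val = 0 then (g j).lo b else .inl (((g j).hi b).testBit (t.val - 1))) =
      (2 * (g j).hi b + (lw y ((g j).lo b)).toNat).testBit t.val := by
    by_cases ht : t.val = 0
    · rw [if_pos ht, ht, Nat.testBit_zero]
      cases lw y ((g j).lo b)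
      · simp
      · simp only [Bool.toNat_true]
        symm
        simp only [decide_eq_true_eq]
        omega
    · rw [if_neg ht]
      obtain ⟨t', ht'⟩ : ∃ t', t.val = t' + 1 := ⟨t.val - 1, by omega⟩
      rw [ht', Nat.testBit_succ, Nat.add_sub_cancel]
      have e2 : (2 * (g j).hi b + (lw y ((g j).lo b)).toNat) / 2 = (g j).hi b := by omega
      rw [e2]
      rfl
  show (if lw y (if t.val = 0 then (g j).lo b else .inl (((g j).hi b).testBit (t.val - 1))) = true
    then 2 ^ t.val else 0) = _
  rw [e]

/-- instructions: `flip i` adds `x i` to the register `q`; `branch r k` skips `k` instructions if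
`q` is not `r` and clears `q`; `add v` adds the hardwired bit `y v` to the accumulator `b` -/
inductive Ins (V : Type) (n : ℕ) : Type
  | flip : Fin n → Ins V n
  | branch : Bool → ℕ → Ins V n
  | add : V → Ins V n

/-- execution -/
def exec (y : V → Bool) (x : Fin n → Bool) : List (Ins V n) → ℕ → Bool → Bool → Bool
  | [], _, _, b => b
  | _ :: P, k + 1, q, b => exec y x P k q b
  | .flip i :: P, 0, q, b => exec y x P 0 (xor q (x i)) b
  | .branch r k :: P, 0, q, b => if q = r then exec y x P 0 false b else exec y x P k false b
  | .add v :: P, 0, q, b => exec y x P 0 q (xor b (y v))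

theorem exec_drop (y : V → Bool) (x : Fin n → Bool) : ∀ (P : List (Ins V n)) (k : ℕ) (q b : Bool),
    exec y x P k q b = exec y x (P.drop k) 0 q b
  | [], k, q, b => by simp [exec]
  | I :: P, 0, q, b => by simp
  | I :: P, k + 1, q, b => by
    rw [List.drop_succ_cons, ← exec_drop y x P k q b]
    simp only [exec]

/-- the node of an instruction in the state `(q, b)` if `l` instructions follow -/
def nd (l : ℕ) (q b : Bool) : Option (Ins V n) → Nd V
  | some (.flip i) => ⟨i.val, fun e => 2 * l + (xor q e).toNat, fun _ => .inl b⟩
  | some (.branch r k) => ⟨0, fun _ => 2 * (if q = r then l else l - k), fun _ => .inl b⟩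
  | some (.add v) => ⟨0, fun _ => 2 * l + q.toNat, fun _ => .inr (v, b)⟩
  | none => ⟨0, fun _ => 0, fun _ => .inl false⟩

/-- the table of nodes of a program; the address of the state `(q, b)` before the last `l`
instructions is `4 l + 2 q + b` -/
def node (P : List (Ins V n)) (s : ℕ) (a : ℕ) : Nd V :=
  if a = s + 1 then ⟨0, fun _ => 2 * P.length, fun _ => .inl false⟩
  else if a / 4 = 0 then ⟨0, fun _ => 0, fun _ => .inl (decide (a % 2 = 1))⟩
  else if a / 4 ≤ P.length then
    nd (a / 4 - 1) (decide (a / 2 % 2 = 1)) (decide (a % 2 = 1)) P[P.length - a / 4]?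
  else ⟨0, fun _ => 0, fun _ => .inl false⟩

theorem node_ok (P : List (Ins V n)) (hn : 1 ≤ n) (hs : 4 * P.length + 4 ≤ s + 1) (a : ℕ)
    (ha : 2 ≤ a) :
    (node P s a).var < n ∧ ∀ e, 2 * (node P s a).hi e + 1 < a := by
  unfold node
  split_ifs with h1 h2 h3
  · exact ⟨hn, fun e => by simp only; omega⟩
  · exact ⟨hn, fun e => by simp only; omega⟩
  · rcases h4 : P[P.length - a / 4]? with _ | I
    · exact ⟨hn, fun e => by simp only [nd]; omega⟩
    · rcases I with i | ⟨r, k⟩ | v'
      · refine ⟨i.2, fun e => ?_⟩
        have := Bool.toNat_le (xor (decide (a / 2 % 2 = 1)) e)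
        simp only [nd]
        omega
      · refine ⟨hn, fun e => ?_⟩
        simp only [nd]
        split_ifs <;> omega
      · refine ⟨hn, fun e => ?_⟩
        have := Bool.toNat_le (decide (a / 2 % 2 = 1))
        simp only [nd]
        omega
  · exact ⟨hn, fun e => by simp only; omega⟩

/-- the address of a state -/
def enc (l : ℕ) (q b : Bool) : ℕ := 4 * l + 2 * q.toNat + b.toNat

theorem enc_div (l : ℕ) (q b : Bool) : enc l q b / 4 = l ∧
    decide (enc l q b / 2 % 2 = 1) = q ∧ decide (enc l q b % 2 = 1) = b := by
  unfold enc
  refine ⟨?_, ?_, ?_⟩
  · cases q <;> cases b <;> simp <;> omega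
  · cases q <;> cases b <;> simp <;> omega
  · cases q <;> cases b <;> simp <;> omega

/-- Programs as descriptions of branching programs. -/
theorem conv_bp (P : List (Ins V n)) (hn : 1 ≤ n) (hs : 4 * P.length + 4 ≤ s + 1)
    (hv : n ≤ 2 ^ v) (hw : s + 2 ≤ 2 ^ w) :
    ∃ σ : BBits s v w → Bool ⊕ (V × Bool), ∀ y : V → Bool,
      BValid n (fun b => lw y (σ b)) ∧
      ∀ x : Fin n → Bool, bout (fun b => lw y (σ b)) x = exec y x P 0 false false := by
  let g : ℕ → Nd V := fun j => node P s (j + 2)
  have hok : ∀ j, j < s → (g j).var < n ∧ ∀ e, 2 * (g j).hi e + 1 < j + 2 :=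
    fun j hj => node_ok P hn hs (j + 2) (by omega)
  have hvar : ∀ (y : V → Bool) (j : Fin s),
      bvar (fun b : BBits s v w => lw y (sgb g b)) j = (g j).var := fun y j =>
    bvar_sgb g y j ((hok j j.isLt).1.trans_le hv)
  have hnext : ∀ (y : V → Bool) (j : Fin s) (e : Bool),
      bnext (fun b : BBits s v w => lw y (sgb g b)) j e =
        2 * (g j).hi e + (lw y ((g j).lo e)).toNat := fun y j e =>
    bnext_sgb g y j e (by
      have h1 := (hok j j.isLt).2 e
      have h2 := j.isLt
      omega)
  refine ⟨sgb g, fun y => ⟨fun j => ⟨?_, fun e => ?_⟩, fun x => ?_⟩⟩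
  · rw [hvar]
    exact (hok j j.isLt).1
  · rw [hnext]
    have h1 := (hok j j.isLt).2 e
    have h2 := Bool.toNat_le (lw y ((g j).lo e))
    omega
  · -- one step
    have hstep : ∀ a, 2 ≤ a → a ≤ s + 1 →
        bstep (fun b : BBits s v w => lw y (sgb g b)) x a =
          2 * (node P s a).hi (rd x (node P s a).var) +
            (lw y ((node P s a).lo (rd x (node P s a).var))).toNat := by
      intro a ha ha2
      unfold bstep
      rw [dif_pos ⟨ha, by omega⟩, hnext, hvar]
      have e : g (a - 2) = node P s a := by
        show node P s (a - 2 + 2) = _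
        rw [Nat.sub_add_cancel ha]
      simp only [e]
    have hsink : ∀ (b : Bool) (c : ℕ),
        (bstep (fun b : BBits s v w => lw y (sgb g b)) x)^[c] b.toNat = b.toNat := by
      intro b c
      induction c with
      | zero => rfl
      | succ c ih =>
        rw [Function.iterate_succ_apply', ih]
        unfold bstep
        rw [dif_neg]
        have := Bool.toNat_le b
        omega
    -- the walk
    have key : ∀ (k : ℕ) (Q : List (Ins V n)), Q.length = k → (∃ P', P = P' ++ Q) →
        ∀ q b : Bool, ∃ c ≤ k + 1,
          (bstep (fun b : BBits s v w => lw y (sgb g b)) x)^[c] (enc k q b) =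
            (exec y x Q 0 q b).toNat := by
      intro k
      induction k using Nat.strong_induction_on with
      | _ k ih =>
        intro Q hQ hPQ q b
        obtain ⟨P', hP'⟩ := hPQ
        have hlen : P.length = P'.length + k := by rw [hP', List.length_append, hQ]
        rcases Q with _ | ⟨I, Q⟩
        · -- end of the program
          have hk : k = 0 := by rw [← hQ]; rfl
          subst hk
          rcases q with _ | _
          · exact ⟨0, by omega, by simp [enc, exec]⟩
          · refine ⟨1, le_rfl, ?_⟩
            rw [Function.iterate_one]
            have h1 : enc 0 true b = 2 + b.toNat := by simp [enc]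
            have h2 := Bool.toNat_le b
            rw [hstep _ (by omega) (by omega)]
            have h3 : node P s (enc 0 true b) = ⟨0, fun _ => 0, fun _ => .inl b⟩ := by
              unfold node
              obtain ⟨d1, d2, d3⟩ := enc_div 0 true b
              rw [if_neg (by rw [h1]; omega), if_pos d1, d3]
            rw [h3]
            simp [lw, exec]
        · have hk : k = Q.length + 1 := by rw [← hQ]; rfl
          have hk1 : k ≤ P.length := by omega
          obtain ⟨d1, d2, d3⟩ := enc_div k q b
          have hget : P[P.length - k]? = some I := by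
            rw [hlen, Nat.add_sub_cancel, hP']
            simp
          have ha : 2 ≤ enc k q b ∧ enc k q b ≤ s := by
            unfold enc
            have := Bool.toNat_le q
            have := Bool.toNat_le b
            omega
          have hPQ' : ∀ k', ∃ P', P = P' ++ Q.drop k' := by
            intro k'
            refine ⟨P' ++ [I] ++ Q.take k', ?_⟩
            rw [hP']
            simp
          have hnode : node P s (enc k q b) = nd (k - 1) q b (some I) := by
            unfold node
            rw [d1, d2, d3, if_neg (by omega), if_neg (by omega), if_pos hk1, hget]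
          -- one step and the rest
          have hone : ∀ (l : ℕ) (Q' : List (Ins V n)) (q' b' : Bool), l < k → Q'.length = l →
              (∃ P', P = P' ++ Q') →
              bstep (fun b : BBits s v w => lw y (sgb g b)) x (enc k q b) = enc l q' b' →
              exec y x Q' 0 q' b' = exec y x (I :: Q) 0 q b →
              ∃ c ≤ k + 1, (bstep (fun b : BBits s v w => lw y (sgb g b)) x)^[c] (enc k q b) =
                (exec y x (I :: Q) 0 q b).toNat := by
            intro l Q' q' b' hl hQ' hPQ'' h1 h2
            obtain ⟨c, hc, h3⟩ := ih l hl Q' hQ' hPQ'' q' b'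
            refine ⟨c + 1, by omega, ?_⟩
            rw [Function.iterate_succ_apply, h1, h3, h2]
          rcases I with i | ⟨r, k'⟩ | v'
          · refine hone (k - 1) Q (xor q (x i)) b (by omega) (by omega)
              (by simpa using hPQ' 0) ?_ rfl
            rw [hstep _ ha.1 (by omega), hnode]
            have h5 : rd x i.val = x i := by
              unfold rd
              rw [dif_pos i.2]
            simp only [nd, lw, h5, enc]
            ring
          · by_cases hq : q = r
            · refine hone (k - 1) Q false b (by omega) (by omega) (by simpa using hPQ' 0) ?_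
                (by simp only [exec, if_pos hq])
              rw [hstep _ ha.1 (by omega), hnode]
              simp only [nd, lw, enc, if_pos hq, Bool.toNat_false]
              ring
            · refine hone (k - 1 - k') (Q.drop k') false b (by omega)
                (by rw [List.length_drop]; omega) (hPQ' k') ?_
                (by simp only [exec, if_neg hq]; rw [exec_drop y x Q k'])
              rw [hstep _ ha.1 (by omega), hnode]
              simp only [nd, lw, enc, if_neg hq, Bool.toNat_false]
              ring
          · refine hone (k - 1) Q q (xor b (y v')) (by omega) (by omega)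
              (by simpa using hPQ' 0) ?_ rfl
            rw [hstep _ ha.1 (by omega), hnode]
            simp only [nd, lw, enc, Bool.xor_comm b (y v')]
            ring
    obtain ⟨c, hc, h1⟩ := key P.length P rfl ⟨[], rfl⟩ false false
    have h2 : bstep (fun b : BBits s v w => lw y (sgb g b)) x (s + 1) =
        enc P.length false false := by
      rw [hstep _ (by omega) le_rfl]
      have h3 : node P s (s + 1) =
          ⟨0, fun _ => 2 * P.length, fun _ => .inl false⟩ := by
        unfold node
        simp
      rw [h3]
      simp only [lw, enc, Bool.toNat_false]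
      ring
    have h4 : (bstep (fun b : BBits s v w => lw y (sgb g b)) x)^[s] (s + 1) =
        (exec y x P 0 false false).toNat := by
      have hit : ∀ (F : ℕ → ℕ) (e N A : ℕ), N = e + c + 1 → F^[N] A = F^[e] (F^[c] (F A)) := by
        intro F e N A hN
        rw [hN, Function.iterate_add_apply F (e + c) 1, Function.iterate_add_apply F e c,
          Function.iterate_one]
      rw [hit _ (s - c - 1) s (s + 1) (by omega), h2, h1, hsink]
    unfold bout
    rw [h4]
    cases exec y x P 0 false false <;> simp

end Pool.Agent.W939.PT
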