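import Mathlib
import Pool.Agent.W939.PT.BP

set_option autoImplicit false

/-!
The lower bound for branching programs and partial truth tables with an arbitrary domain.
-/

namespace Pool.Agent.W939.PT

open Finset H542 H542.MC Pool.Agent.W939.FR

variable {V : Type} {n m : ℕ}

theorem exec_flips (y : V → Bool) (x : Fin n → Bool) (P : List (Ins V n)) (b : Bool) :
    ∀ (l : List (Fin n)) (q : Bool), exec y x (l.map Ins.flip ++ P) 0 q b =
      exec y x P 0 (xor q ((l.map x).foldr xor false)) b
  | [], q => by simp
  | i :: l, q => by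
    simp only [List.map_cons, List.cons_append, exec, List.foldr_cons]
    rw [exec_flips y x P b l]
    congr 1
    exact Bool.xor_assoc _ _ _

theorem exec_adds (y : V → Bool) (x : Fin n → Bool) (P : List (Ins V n)) (q : Bool) :
    ∀ (l : List V) (b : Bool), exec y x (l.map Ins.add ++ P) 0 q b =
      exec y x P 0 q (xor b ((l.map y).foldr xor false))
  | [], b => by simp
  | i :: l, b => by
    simp only [List.map_cons, List.cons_append, exec, List.foldr_cons]
    rw [exec_adds y x P q l]
    congr 1
    exact Bool.xor_assoc _ _ _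

theorem exec_skip (y : V → Bool) (x : Fin n → Bool) (P Q : List (Ins V n)) (q b : Bool) :
    exec y x (P ++ Q) P.length q b = exec y x Q 0 q b := by
  rw [exec_drop, List.drop_left]

theorem par_fold (T : Finset (Fin n)) (x : Fin n → Bool) :
    (T.toList.map x).foldr xor false = par T x := by
  have e : T.toList.map x = T.toList.map fun i => decide (Odd (if x i = true then 1 else 0)) := by
    refine List.map_congr_left fun i _ => ?_
    cases x i <;> simp
  rw [e, foldr_xor, Finset.sum_map_toList, par, card_filter]

/-- the instructions of a block -/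
noncomputable def tests (H : Fin m → Finset (Fin n)) (R : Finset (Fin m)) (A : List (Ins V n)) :
    List (Fin m) → List (Ins V n)
  | [] => A
  | i :: l => (H i).toList.map Ins.flip ++
      Ins.branch (decide (i ∈ R)) (tests H R A l).length :: tests H R A l

theorem tests_length (H : Fin m → Finset (Fin n)) (R : Finset (Fin m)) (A : List (Ins V n)) :
    ∀ l : List (Fin m), (tests H R A l).length ≤ A.length + l.length * (n + 1)
  | [] => by simp [tests]
  | i :: l => by
    have h1 := tests_length H R A l
    have h2 : (H i).card ≤ n := by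
      have := card_le_univ (H i)
      rwa [Fintype.card_fin] at this
    simp only [tests, List.length_append, List.length_map, length_toList, List.length_cons]
    rw [Nat.add_mul]
    omega

theorem exec_tests (H : Fin m → Finset (Fin n)) (R : Finset (Fin m)) (A Q : List (Ins V n))
    (y : V → Bool) (x : Fin n → Bool) (b : Bool) : ∀ l : List (Fin m),
    exec y x (tests H R A l ++ Q) 0 false b =
      if ∀ i ∈ l, (par (H i) x = true ↔ i ∈ R) then exec y x (A ++ Q) 0 false b
      else exec y x Q 0 false b
  | [] => by simp [tests]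
  | i :: l => by
    have ih := exec_tests H R A Q y x b l
    simp only [tests, List.append_assoc, List.cons_append]
    rw [exec_flips, par_fold, Bool.false_xor]
    simp only [exec, exec_skip, ih]
    by_cases h1 : ∀ j ∈ l, (par (H j) x = true ↔ j ∈ R) <;> by_cases h2 : i ∈ R <;>
      cases h3 : par (H i) x <;> simp [h1, h2, h3]

/-- A program which computes `parV` of the hash value. -/
theorem prog_bp (n m g M : ℕ) (H : Fin m → Finset (Fin n)) :
    ∃ P : List (Ins (Blk m g × Fin M) n),
      P.length ≤ Fintype.card (Blk m g) * (M + g * (n + 1)) ∧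
      ∀ (y : Blk m g × Fin M → Bool) (x : Fin n → Bool),
        exec y x P 0 false false = parV (fun i => par (H i) x) y := by
  classical
  let bl : Blk m g → List (Ins (Blk m g × Fin M) n) := fun p =>
    tests H p.1.2 (((univ : Finset (Fin M)).toList.map fun j => (p, j)).map Ins.add) p.1.1.toList
  have bl_len : ∀ p, (bl p).length ≤ M + g * (n + 1) := by
    intro p
    have h1 := tests_length H p.1.2
      (((univ : Finset (Fin M)).toList.map fun j => (p, j)).map Ins.add) p.1.1.toList
    rw [List.length_map, List.length_map, length_toList, length_toList, card_univ,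
      Fintype.card_fin, p.2.1] at h1
    exact h1
  let cnt : (Blk m g × Fin M → Bool) → (Fin n → Bool) → Blk m g → ℕ := fun y x p =>
    if Has (fun i => par (H i) x) p then ∑ j : Fin M, (if y (p, j) = true then 1 else 0) else 0
  have len : ∀ L : List (Blk m g), (L.flatMap bl).length ≤ L.length * (M + g * (n + 1)) := by
    intro L
    induction L with
    | nil => simp
    | cons p L ih =>
      rw [List.flatMap_cons, List.length_append, List.length_cons, Nat.add_mul]
      have := bl_len p
      omega
  have val : ∀ (y : Blk m g × Fin M → Bool) (x : Fin n → Bool) (L : List (Blk m g)) (b : Bool),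
      exec y x (L.flatMap bl) 0 false b =
        xor b ((L.map fun p => decide (Odd (cnt y x p))).foldr xor false) := by
    intro y x L
    induction L with
    | nil => intro b; simp [exec]
    | cons p L ih =>
      intro b
      rw [List.flatMap_cons]
      show exec y x (tests H p.1.2 _ p.1.1.toList ++ _) 0 false b = _
      rw [exec_tests, exec_adds, ih, ih, List.map_cons, List.foldr_cons]
      have e1 : (∀ i ∈ p.1.1.toList, (par (H i) x = true ↔ i ∈ p.1.2)) ↔
          Has (fun i => par (H i) x) p := by
        unfold Has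
        simp only [mem_toList]
      have e2 : ((((univ : Finset (Fin M)).toList.map fun j => (p, j)).map y).foldr xor false) =
          decide (Odd (∑ j : Fin M, (if y (p, j) = true then 1 else 0))) := by
        rw [← Finset.sum_map_toList, ← foldr_xor, List.map_map]
        congr 1
        refine List.map_congr_left fun j _ => ?_
        show y (p, j) = _
        cases y (p, j) <;> simp
      rw [e2]
      by_cases h : Has (fun i => par (H i) x) p
      · have hc : cnt y x p = ∑ j : Fin M, (if y (p, j) = true then 1 else 0) := if_pos h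
        rw [if_pos (e1.2 h), hc, Bool.xor_assoc]
      · have hc : cnt y x p = 0 := if_neg h
        rw [if_neg (fun h' => h (e1.1 h')), hc]
        simp
  refine ⟨(univ : Finset (Blk m g)).toList.flatMap bl, ?_, fun y x => ?_⟩
  · have h1 := len (univ : Finset (Blk m g)).toList
    rwa [length_toList, card_univ] at h1
  · rw [val, foldr_xor, Finset.sum_map_toList, Bool.false_xor]
    unfold parV
    have e4 : (univ.filter fun v : Blk m g × Fin M =>
        Has (fun i => par (H i) x) v.1 ∧ y v = true).card = ∑ p, cnt y x p := by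
      rw [card_filter, Fintype.sum_prod_type]
      refine sum_congr rfl fun p _ => ?_
      show _ = if Has (fun i => par (H i) x) p then _ else 0
      by_cases h : Has (fun i => par (H i) x) p
      · simp [h]
      · simp [h]
    rw [e4]

/-- Branching programs for partial truth tables. -/
theorem partial_bp (δ : ℝ) (hδ : 0 < δ) :
    ∃ ε : ℝ, 0 < ε ∧ ∃ n0 : ℕ, ∀ n ≥ n0, ∀ (T : (Fin n → Bool) → Option Bool) (s v w : ℕ),
      ((dom T).card : ℝ) ^ δ ≤ s → s ≤ (dom T).card ^ 2 → n ^ 7 ≤ s → n ≤ 2 ^ v →
        s + 2 ≤ 2 ^ w → ∀ a L S : ℕ, (a : ℝ) ≤ (s : ℝ) ^ ε → (L : ℝ) ≤ (s : ℝ) ^ (1 + ε) →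
          Nonempty (Ref (BBits s v w) (Fin n → Bool) (BAgrees T) a L S) →
            (2 : ℝ) ^ ((s : ℝ) ^ ε) ≤ S := by
  obtain ⟨ε, hε, m0, hmain⟩ := main (m_expa m_isol) m_flip m_card m_num (δ / 3) (by positivity)
  obtain ⟨n0, hn0⟩ := params δ hδ m0
  refine ⟨ε, hε, n0, fun n hn T s v w h1 h2 h3 hv h4 a L S ha hL hR => ?_⟩
  obtain ⟨m, c1, c2, c3, c4, c5, c6, c7⟩ := hn0 n hn s (dom T).card (by
    refine (card_le_univ _).trans ?_
    simp) h1 h2 h3
  obtain ⟨H, hH⟩ := exists_hash (dom T) m c2
  refine hmain m c1 s (m * (4 * n ^ 2 + 1) + 1) c4 c5 c6 (BBits s v w) (Fin n → Bool)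
    (dom T : Set (Fin n → Bool)) (fun x i => par (H i) x) (fun x => (T x).getD false)
    (BAgrees T) hH ?_ a L S ha hL hR
  intro d M hd hM hs
  have hne : Nonempty (Blk m (2 * d)) := by
    obtain ⟨S, hS⟩ := exists_subset_card_eq (s := (univ : Finset (Fin m))) (n := 2 * d)
      (by rw [card_univ, Fintype.card_fin]; omega)
    exact ⟨⟨(S, ∅), hS.2, empty_subset _⟩⟩
  obtain ⟨P, t1, t3⟩ := prog_bp n m (2 * d) M H
  have t4 : 4 * P.length + 4 ≤ s + 1 := by
    have hc : 1 ≤ Fintype.card (Blk m (2 * d)) := Fintype.card_pos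
    obtain ⟨N, hN⟩ : ∃ N, N = Fintype.card (Blk m (2 * d)) := ⟨_, rfl⟩
    rw [← hN] at hc t1 hs
    have e1 : 2 * d * (n + 1) ≤ m * (4 * n ^ 2 + 1) := by
      apply Nat.mul_le_mul (by omega)
      have : n ≤ n ^ 2 := Nat.le_self_pow (by norm_num) n
      omega
    have e2 : P.length ≤ N * (M + (m * (4 * n ^ 2 + 1) + 1)) :=
      t1.trans (Nat.mul_le_mul_left _ (by omega))
    have e3 : 1 ≤ N * (M + (m * (4 * n ^ 2 + 1) + 1)) := Nat.mul_pos hc (by omega)
    have e4 : N * (M + (m * (4 * n ^ 2 + 1) + 1)) ≤
        N ^ 2 * (M + (m * (4 * n ^ 2 + 1) + 1)) :=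
      Nat.mul_le_mul_right _ (Nat.le_self_pow (by norm_num) N)
    have e5 : 8 * N ^ 2 * (M + (m * (4 * n ^ 2 + 1) + 1)) =
      8 * (N ^ 2 * (M + (m * (4 * n ^ 2 + 1) + 1))) := by ring
    omega
  obtain ⟨σ, hσ⟩ := conv_bp (v := v) (w := w) P c7 t4 hv h4
  refine ⟨σ, fun y x hx => ?_⟩
  obtain ⟨k1, k3⟩ := hσ y
  refine ⟨k1, fun b hb => ?_⟩
  rw [k3, t3, hx (by
    show x ∈ ((dom T : Finset _) : Set _)
    rw [mem_coe, dom, mem_filter]
    exact ⟨mem_univ _, by rw [hb]; rfl⟩), hb]
  rfl

end Pool.Agent.W939.PT
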